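import Mathlib

/-! The comonotone coupling of the moves, and the pairing argument. -/

namespace Pool.Agent.Lib.MP_2c6a66_lc

open MeasureTheory Set

noncomputable section

/-- indicator of `U ≤ q` -/
def ind (q U : ℝ) : ℝ := if U ≤ q then 1 else 0

theorem ind_eq (q : ℝ) : ind q = (Iic q).indicator (fun _ => (1 : ℝ)) := by
  funext U
  simp [ind, Set.indicator, Set.mem_Iic]

theorem integrable_ind (q : ℝ) : IntegrableOn (ind q) (Ioc 0 1) := by
  rw [ind_eq]
  exact (integrable_const (1 : ℝ)).indicator measurableSet_Iic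

theorem integral_ind {q : ℝ} (h0 : 0 ≤ q) (h1 : q ≤ 1) : ∫ U in Ioc (0 : ℝ) 1, ind q U = q := by
  rw [ind_eq, integral_indicator measurableSet_Iic, Measure.restrict_restrict measurableSet_Iic]
  have : Iic q ∩ Ioc (0 : ℝ) 1 = Ioc 0 q := by
    ext U
    simp only [mem_inter_iff, mem_Iic, mem_Ioc]
    constructor
    · rintro ⟨a, b, _⟩; exact ⟨b, a⟩
    · rintro ⟨a, b⟩; exact ⟨b, a, b.trans h1⟩
  rw [this]
  simp [h0]

theorem ind_nonneg (q U : ℝ) : 0 ≤ ind q U := by
  unfold ind; split_ifs <;> norm_num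

theorem ind_le_one (q U : ℝ) : ind q U ≤ 1 := by
  unfold ind; split_ifs <;> norm_num

theorem pair_pointwise {c d q c' d' q' : ℝ} (hc : 0 ≤ c) (hc' : 0 ≤ c')
    (hd' : 0 ≤ d') (hx : c * d' ≤ c' * d) (hq : q ≤ q') (U : ℝ) :
    max (c * c' * (1 - ind q U) + c * d' * ind q' U) (c * c' * (1 - ind q' U) + c' * d * ind q U)
      ≤ c * c' + (c' * d - c * c' - c * d') * ind q U + c * d' * ind q' U := by
  have hcc : 0 ≤ c * c' := mul_nonneg hc hc'
  have hcd : 0 ≤ c * d' := mul_nonneg hc hd'
  unfold ind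
  rcases le_or_gt U q with h | h
  · have h' : U ≤ q' := h.trans hq
    rw [if_pos h, if_pos h']
    apply max_le <;> linarith
  · rw [if_neg (not_le.2 h)]
    rcases le_or_gt U q' with h' | h'
    · rw [if_pos h']
      apply max_le <;> linarith
    · rw [if_neg (not_le.2 h')]
      apply max_le <;> linarith

/-- The pairing bound: what is required from two units. -/
def PairOK (κ c d q c' d' q' : ℝ) : Prop :=
  (c * d' ≤ c' * d ∧ q ≤ q' ∧
    (c' * d - c * c' - c * d') * q + c * d' * q' ≤ κ * (c * c'))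
  ∨ (c' * d ≤ c * d' ∧ q' ≤ q ∧
    (c * d' - c * c' - c' * d) * q' + c' * d * q ≤ κ * (c * c'))

theorem pairOK_exists {κ c d q c' d' q' : ℝ} (hc : 0 ≤ c) (hd : 0 ≤ d) (hc' : 0 ≤ c')
    (hd' : 0 ≤ d') (h : PairOK κ c d q c' d' q') :
    ∃ β γ : ℝ, (∀ U, max (c * c' * (1 - ind q U) + c * d' * ind q' U)
        (c * c' * (1 - ind q' U) + c' * d * ind q U) ≤ c * c' + β * ind q U + γ * ind q' U) ∧
      β * q + γ * q' ≤ κ * (c * c') := by
  rcases h with ⟨h1, h2, h3⟩ | ⟨h1, h2, h3⟩
  · exact ⟨c' * d - c * c' - c * d', c * d', fun U => pair_pointwise hc hc' hd' h1 h2 U, h3⟩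
  · refine ⟨c' * d, c * d' - c * c' - c' * d, fun U => ?_, ?_⟩
    · have := pair_pointwise (c := c') (d := d') (c' := c) (d' := d) hc' hc hd h1 h2 U
      rw [max_comm]
      calc _ ≤ _ := le_trans (le_of_eq ?_) this
        _ = _ := by ring
      congr 1 <;> ring
    · linarith

theorem integral_lin {a b e q q' : ℝ} (h0 : 0 ≤ q) (h1 : q ≤ 1) (h0' : 0 ≤ q') (h1' : q' ≤ 1) :
    ∫ U in Ioc (0 : ℝ) 1, (a + b * ind q U + e * ind q' U) = a + b * q + e * q' := by
  have i1 : IntegrableOn (fun _ : ℝ => a) (Ioc 0 1) := integrable_const a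
  have i2 : IntegrableOn (fun U => b * ind q U) (Ioc 0 1) := (integrable_ind q).const_mul b
  have i3 : IntegrableOn (fun U => e * ind q' U) (Ioc 0 1) := (integrable_ind q').const_mul e
  have i4 : IntegrableOn (fun U => a + b * ind q U) (Ioc 0 1) := i1.add i2
  rw [integral_add i4 i3, integral_add i1 i2, integral_const_mul, integral_const_mul,
    integral_ind h0 h1, integral_ind h0' h1']
  simp

theorem coupling_bound {ι ι' : Type*} [Fintype ι] [Fintype ι'] (κ T : ℝ) (hT : 0 < T)
    (c d q : ι → ℝ) (c' d' q' : ι' → ℝ) (hc : ∀ i, 0 ≤ c i) (hd : ∀ i, 0 ≤ d i)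
    (hc' : ∀ i, 0 ≤ c' i) (hd' : ∀ i, 0 ≤ d' i)
    (hq0 : ∀ i, 0 ≤ q i) (hq1 : ∀ i, q i ≤ 1) (hq0' : ∀ i, 0 ≤ q' i) (hq1' : ∀ i, q' i ≤ 1)
    (hs : ∑ i, c i = T) (hs' : ∑ i, c' i = T)
    (hp : ∀ i j, PairOK κ (c i) (d i) (q i) (c' j) (d' j) (q' j)) :
    ∫ U in Ioc (0 : ℝ) 1, max (∑ i, c i * (1 - ind (q i) U) + ∑ j, d' j * ind (q' j) U)
      (∑ j, c' j * (1 - ind (q' j) U) + ∑ i, d i * ind (q i) U) ≤ (1 + κ) * T := by
  choose β γ h1 h2 using fun i j => pairOK_exists (hc i) (hd i) (hc' j) (hd' j) (hp i j)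
  have hpt : ∀ U, T * max (∑ i, c i * (1 - ind (q i) U) + ∑ j, d' j * ind (q' j) U)
      (∑ j, c' j * (1 - ind (q' j) U) + ∑ i, d i * ind (q i) U)
      ≤ ∑ i, ∑ j, (c i * c' j + β i j * ind (q i) U + γ i j * ind (q' j) U) := by
    intro U
    rw [mul_max_of_nonneg _ _ hT.le]
    have e1 : T * (∑ i, c i * (1 - ind (q i) U) + ∑ j, d' j * ind (q' j) U)
        = ∑ i, ∑ j, (c i * c' j * (1 - ind (q i) U) + c i * d' j * ind (q' j) U) := by
      simp only [Finset.sum_add_distrib]
      rw [mul_add]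
      congr 1
      · conv_lhs => rw [← hs']
        rw [Finset.sum_mul_sum, Finset.sum_comm]
        refine Finset.sum_congr rfl fun i _ => Finset.sum_congr rfl fun j _ => by ring
      · conv_lhs => rw [← hs]
        rw [Finset.sum_mul_sum]
        refine Finset.sum_congr rfl fun i _ => Finset.sum_congr rfl fun j _ => by ring
    have e2 : T * (∑ j, c' j * (1 - ind (q' j) U) + ∑ i, d i * ind (q i) U)
        = ∑ i, ∑ j, (c i * c' j * (1 - ind (q' j) U) + c' j * d i * ind (q i) U) := by
      simp only [Finset.sum_add_distrib]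
      rw [mul_add]
      congr 1
      · conv_lhs => rw [← hs]
        rw [Finset.sum_mul_sum]
        refine Finset.sum_congr rfl fun i _ => Finset.sum_congr rfl fun j _ => by ring
      · conv_lhs => rw [← hs']
        rw [Finset.sum_mul_sum, Finset.sum_comm]
        refine Finset.sum_congr rfl fun i _ => Finset.sum_congr rfl fun j _ => by ring
    rw [e1, e2]
    apply max_le
    · exact Finset.sum_le_sum fun i _ => Finset.sum_le_sum fun j _ =>
        (le_max_left _ _).trans (h1 i j U)
    · exact Finset.sum_le_sum fun i _ => Finset.sum_le_sum fun j _ =>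
        (le_max_right _ _).trans (h1 i j U)
  have hi : ∀ i j, IntegrableOn (fun U => c i * c' j + β i j * ind (q i) U +
      γ i j * ind (q' j) U) (Ioc 0 1) := fun i j =>
    (((integrable_const (c i * c' j)).add ((integrable_ind (q i)).const_mul _)).add
      ((integrable_ind (q' j)).const_mul _))
  have hR : ∫ U in Ioc (0 : ℝ) 1, (∑ i, ∑ j, (c i * c' j + β i j * ind (q i) U +
      γ i j * ind (q' j) U)) = ∑ i, ∑ j, (c i * c' j + β i j * q i + γ i j * q' j) := by
    rw [integral_finsetSum _ fun i _ => integrable_finsetSum _ fun j _ => hi i j]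
    refine Finset.sum_congr rfl fun i _ => ?_
    rw [integral_finsetSum _ fun j _ => hi i j]
    refine Finset.sum_congr rfl fun j _ => ?_
    exact integral_lin (hq0 i) (hq1 i) (hq0' j) (hq1' j)
  have hL : T * ∫ U in Ioc (0 : ℝ) 1, max (∑ i, c i * (1 - ind (q i) U) +
      ∑ j, d' j * ind (q' j) U) (∑ j, c' j * (1 - ind (q' j) U) + ∑ i, d i * ind (q i) U)
      ≤ ∑ i, ∑ j, (c i * c' j + β i j * q i + γ i j * q' j) := by
    rw [← hR, ← integral_const_mul]
    apply integral_mono
    · apply Integrable.const_mul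
      apply Integrable.sup
      · apply Integrable.add
        · exact integrable_finsetSum _ fun i _ =>
            (((integrable_const (1 : ℝ)).sub (integrable_ind (q i))).const_mul _)
        · exact integrable_finsetSum _ fun i _ => ((integrable_ind (q' i)).const_mul _)
      · apply Integrable.add
        · exact integrable_finsetSum _ fun i _ =>
            (((integrable_const (1 : ℝ)).sub (integrable_ind (q' i))).const_mul _)
        · exact integrable_finsetSum _ fun i _ => ((integrable_ind (q i)).const_mul _)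
    · exact integrable_finsetSum _ fun i _ => integrable_finsetSum _ fun j _ => hi i j
    · exact hpt
  have hF : ∑ i, ∑ j, (c i * c' j + β i j * q i + γ i j * q' j) ≤ (1 + κ) * (T * T) := by
    have : (1 + κ) * (T * T) = ∑ i, ∑ j, (1 + κ) * (c i * c' j) := by
      conv_lhs => rw [← hs]
      conv_lhs => rw [hs]
      rw [show T * T = (∑ i, c i) * (∑ j, c' j) by rw [hs, hs'], Finset.sum_mul_sum,
        Finset.mul_sum]
      refine Finset.sum_congr rfl fun i _ => by rw [Finset.mul_sum]
    rw [this]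
    exact Finset.sum_le_sum fun i _ => Finset.sum_le_sum fun j _ => by
      have := h2 i j
      linarith
  have := hL.trans hF
  have h3 : T * ∫ U in Ioc (0 : ℝ) 1, max (∑ i, c i * (1 - ind (q i) U) +
      ∑ j, d' j * ind (q' j) U) (∑ j, c' j * (1 - ind (q' j) U) + ∑ i, d i * ind (q i) U)
      ≤ T * ((1 + κ) * T) := by linarith
  exact le_of_mul_le_mul_left h3 hT

/-- The law of a finite valued function of the uniform variable. -/
def law {α : Type*} (X : ℝ → α) (a : α) : ℝ := (volume.restrict (Ioc (0 : ℝ) 1)).real {U | X U = a}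

theorem law_nonneg {α : Type*} (X : ℝ → α) (a : α) : 0 ≤ law X a := measureReal_nonneg

theorem sum_law {α : Type*} [Fintype α] [DecidableEq α] (X : ℝ → α)
    (hX : ∀ a, MeasurableSet {U | X U = a}) (g : α → ℝ) :
    ∑ a, law X a * g a = ∫ U in Ioc (0 : ℝ) 1, g (X U) := by
  have : (fun U => g (X U)) = fun U => ∑ a, ({U | X U = a} : Set ℝ).indicator (fun _ => g a) U := by
    funext U
    simp [Set.indicator]
  rw [this, integral_finsetSum _ fun a _ => (integrable_const (g a)).indicator (hX a)]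
  refine Finset.sum_congr rfl fun a _ => ?_
  rw [integral_indicator_const _ (hX a)]
  rfl

end

end Pool.Agent.Lib.MP_2c6a66_lc
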