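import Pool.Agent.Lib.MP_2c6a66_lc.Profile
import Pool.Agent.Lib.MP_2c6a66_lc.Coupling

/-! The marginal function `m a b`: the probability that a machine with time `a` gets the job
when the other machine has time `b`. -/

namespace Pool.Agent.Lib.MP_2c6a66_lc

open MeasureTheory Set

noncomputable section

/-- `f (x / y)`, read as `0` for `y = 0`; used for `x ≥ y`. -/
def phi (x y : ℝ) : ℝ := if y = 0 then 0 else f (x / y)

/-- probability that the machine with time `a` receives the job against time `b` -/
def m (a b : ℝ) : ℝ := if a < b then 1 - phi b a else if a = b then 1 / 2 else phi a b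

theorem phi_nonneg (x y : ℝ) : 0 ≤ phi x y := by
  unfold phi; split_ifs; exacts [le_rfl, f_nonneg _]

theorem phi_le_half {x y : ℝ} (hy : 0 ≤ y) (hxy : y ≤ x) : phi x y ≤ 1 / 2 := by
  unfold phi
  split_ifs with h
  · norm_num
  · have hy' : 0 < y := lt_of_le_of_ne hy (Ne.symm h)
    exact f_le_half ((one_le_div hy').2 hxy)

/-- decreasing in the first argument -/
theorem phi_anti_left {x x' y : ℝ} (hy : 0 ≤ y) (h : x ≤ x') : phi x' y ≤ phi x y := by
  unfold phi
  split_ifs with h0
  · exact le_rfl
  · exact f_antitone (div_le_div_of_nonneg_right h hy)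

/-- increasing in the second argument -/
theorem phi_mono_right {x y y' : ℝ} (hx : 0 ≤ x) (hy : 0 ≤ y) (h : y ≤ y') :
    phi x y ≤ phi x y' := by
  rcases hy.eq_or_lt with h0 | h0
  · rw [phi, if_pos h0.symm]; exact phi_nonneg _ _
  · have h0' : 0 < y' := h0.trans_le h
    rw [phi, phi, if_neg h0.ne', if_neg h0'.ne']
    exact f_antitone (div_le_div_of_nonneg_left hx h0 h)

theorem m_of_lt {a b : ℝ} (h : a < b) : m a b = 1 - phi b a := by rw [m, if_pos h]

theorem m_self (a : ℝ) : m a a = 1 / 2 := by
  rw [m, if_neg (lt_irrefl a), if_pos rfl]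

theorem m_of_gt {a b : ℝ} (h : b < a) : m a b = phi a b := by
  rw [m, if_neg (not_lt.2 h.le), if_neg h.ne']

theorem m_add (a b : ℝ) : m a b + m b a = 1 := by
  rcases lt_trichotomy a b with h | h | h
  · rw [m_of_lt h, m_of_gt h]; ring
  · subst h; rw [m_self]; norm_num
  · rw [m_of_gt h, m_of_lt h]; ring

theorem m_nonneg {a b : ℝ} (ha : 0 ≤ a) (_hb : 0 ≤ b) : 0 ≤ m a b := by
  rcases lt_trichotomy a b with h | h | h
  · rw [m_of_lt h]; have := phi_le_half ha h.le; linarith
  · subst h; rw [m_self]; norm_num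
  · rw [m_of_gt h]; exact phi_nonneg _ _

theorem m_le_one {a b : ℝ} (ha : 0 ≤ a) (hb : 0 ≤ b) : m a b ≤ 1 := by
  have := m_add a b
  have := m_nonneg hb ha
  linarith

theorem m_anti {a a' b : ℝ} (ha : 0 ≤ a) (hb : 0 ≤ b) (h : a ≤ a') : m a' b ≤ m a b := by
  rcases lt_trichotomy a' b with h1 | h1 | h1
  · rw [m_of_lt h1, m_of_lt (h.trans_lt h1)]
    have := phi_mono_right hb ha h
    linarith
  · rcases h.eq_or_lt with h2 | h2
    · rw [h2]
    · rw [h1, m_self, m_of_lt (h1 ▸ h2)]
      have := phi_le_half ha (h1 ▸ h2.le : a ≤ b)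
      linarith
  · rcases lt_trichotomy a b with h2 | h2 | h2
    · rw [m_of_gt h1, m_of_lt h2]
      have := phi_le_half ha h2.le
      have := phi_le_half hb h1.le
      linarith
    · rw [m_of_gt h1, h2, m_self]
      exact phi_le_half hb h1.le
    · rw [m_of_gt h1, m_of_gt h2]
      exact phi_anti_left hb h

theorem phi_large {a b : ℝ} (hb : 0 ≤ b) (h : 3 * b ≤ a) : phi a b = 0 := by
  unfold phi
  split_ifs with h0
  · rfl
  · have hb' : 0 < b := lt_of_le_of_ne hb (Ne.symm h0)
    apply f_eq0
    rw [le_div_iff₀ hb']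
    nlinarith

theorem m_large {a b : ℝ} (hb : 0 ≤ b) (h : 3 * b < a) : m a b = 0 := by
  have : b < a := by nlinarith
  rw [m_of_gt this, phi_large hb h.le]

theorem m_homog {a b l : ℝ} (hl : 0 < l) : m (l * a) (l * b) = m a b := by
  have hphi : ∀ x y : ℝ, phi (l * x) (l * y) = phi x y := by
    intro x y
    unfold phi
    by_cases h : y = 0
    · simp [h]
    · rw [if_neg h, if_neg (mul_ne_zero hl.ne' h), mul_div_mul_left _ _ hl.ne']
  unfold m
  simp only [hphi, mul_lt_mul_iff_right₀ hl, mul_right_inj' hl.ne']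

theorem m_eq {c d : ℝ} (hc : 0 < c) : m d c = m (d / c) 1 := by
  have := m_homog (a := d / c) (b := 1) hc
  rw [← this, mul_one, mul_div_cancel₀ _ hc.ne']

/-- The key inequality. -/
theorem star {x y : ℝ} (hy : 0 ≤ y) (hxy : y ≤ x) :
    m x 1 * (x - 1 - y) + y * m y 1 ≤ 0.506 := by
  rcases lt_trichotomy x 1 with hx | hx | hx
  · -- both below one
    have hy1 : y < 1 := hxy.trans_lt hx
    have hm := m_anti hy zero_le_one hxy
    have h1 : m x 1 ≤ 1 := m_le_one (hy.trans hxy) zero_le_one
    have h2 : m y 1 ≤ 1 := m_le_one hy zero_le_one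
    have h3 : 1 / 2 ≤ m x 1 := by
      rw [m_of_lt hx]
      have := phi_le_half (hy.trans hxy) hx.le
      linarith
    nlinarith
  · subst hx
    rw [m_self]
    have h2 : m y 1 ≤ 1 := m_le_one hy zero_le_one
    nlinarith
  · have ex : m x 1 = f x := by
      rw [m_of_gt hx, phi, if_neg one_ne_zero, div_one]
    rw [ex]
    rcases lt_trichotomy y 1 with h | h | h
    · rcases hy.eq_or_lt with h0 | h0
      · rw [← h0]
        have := knotInf hx.le
        linarith
      · have ey : m y 1 = 1 - f (1 / y) := by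
          rw [m_of_lt h, phi, if_neg h0.ne']
        rw [ey]
        have hz : 1 ≤ 1 / y := by rw [le_div_iff₀ h0]; linarith
        have := ineqA hx.le hz
        have h4 := mul_le_mul_of_nonneg_left this hy
        have e : y * (1 / y) = 1 := by field_simp
        have : y * (f x * (x * (1 / y) - 1 / y - 1) + 1 - f (1 / y))
            = f x * (x * (y * (1 / y)) - y * (1 / y) - y) + y - y * f (1 / y) := by ring
        rw [this, e] at h4
        have h5 : y * (0.506 * (1 / y)) = 0.506 := by
          rw [show y * (0.506 * (1 / y)) = 0.506 * (y * (1 / y)) by ring, e, mul_one]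
        rw [h5] at h4
        linarith
    · subst h
      rw [m_self]
      have := ineqB le_rfl hx.le
      rw [f_one] at this
      linarith
    · have ey : m y 1 = f y := by
        rw [m_of_gt h, phi, if_neg one_ne_zero, div_one]
      rw [ey]
      exact ineqB h.le hxy

/-- what the pairing argument needs from one job: own cost `c`, other cost `d`, move
probability `q` -/
def Good (c d q : ℝ) : Prop := (c = 0 ∧ d = 0) ∨ q = m d c

theorem pairOK_of_good {c d q c' d' q' : ℝ} (hc : 0 ≤ c) (hd : 0 ≤ d) (hc' : 0 ≤ c')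
    (hd' : 0 ≤ d') (hq0 : 0 ≤ q) (hq0' : 0 ≤ q')
    (h : Good c d q) (h' : Good c' d' q') : PairOK 0.506 c d q c' d' q' := by
  have key : ∀ {c d q c' d' q' : ℝ}, 0 < c → 0 ≤ d → 0 < c' → 0 ≤ d' → q = m d c →
      q' = m d' c' → d' / c' ≤ d / c → (c * d' ≤ c' * d ∧ q ≤ q' ∧
    (c' * d - c * c' - c * d') * q + c * d' * q' ≤ 0.506 * (c * c')) := by
    intro c d q c' d' q' hc hd hc' hd' hq hq' hr
    rw [div_le_div_iff₀ hc' hc] at hr
    refine ⟨by linarith, ?_, ?_⟩
    · rw [hq, hq', m_eq hc, m_eq hc']
      exact m_anti (by positivity) zero_le_one (by rw [div_le_div_iff₀ hc' hc]; exact hr)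
    · have := star (x := d / c) (y := d' / c') (by positivity)
        (by rw [div_le_div_iff₀ hc' hc]; exact hr)
      rw [← m_eq hc, ← m_eq hc', ← hq, ← hq'] at this
      have h2 := mul_le_mul_of_nonneg_left this (mul_pos hc hc').le
      have e : c * c' * (q * (d / c - 1 - d' / c') + d' / c' * q')
          = (c' * d - c * c' - c * d') * q + c * d' * q' := by
        field_simp
      rw [e] at h2
      linarith
  rcases hc.eq_or_lt with h0 | h0
  · -- c = 0
    rcases hd.eq_or_lt with h1 | h1
    · rw [← h0, ← h1]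
      rcases le_total q q' with h2 | h2
      · left; simp [h2]
      · right; simp [h2]
    · have hq : q = 0 := by
        rcases h with h | h
        · exact absurd h.2 h1.ne'
        · rw [h, ← h0, m_of_gt h1, phi, if_pos rfl]
      rw [← h0, hq]
      left
      refine ⟨by nlinarith, hq0', by simp⟩
  rcases hc'.eq_or_lt with h0' | h0'
  · rcases hd'.eq_or_lt with h1 | h1
    · rw [← h0', ← h1]
      rcases le_total q q' with h2 | h2
      · left; simp [h2]
      · right; simp [h2]
    · have hq : q' = 0 := by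
        rcases h' with h | h
        · exact absurd h.2 h1.ne'
        · rw [h, ← h0', m_of_gt h1, phi, if_pos rfl]
      rw [← h0', hq]
      right
      refine ⟨by nlinarith, hq0, by simp⟩
  have hq : q = m d c := by
    rcases h with h | h
    · exact absurd h.1 h0.ne'
    · exact h
  have hq' : q' = m d' c' := by
    rcases h' with h | h
    · exact absurd h.1 h0'.ne'
    · exact h
  rcases le_total (d' / c') (d / c) with hr | hr
  · exact Or.inl (key h0 hd h0' hd' hq hq' hr)
  · right
    have := key h0' hd' h0 hd hq' hq hr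
    refine ⟨this.1, this.2.1, ?_⟩
    have := this.2.2
    linarith

end

end Pool.Agent.Lib.MP_2c6a66_lc
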