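import Pool.Agent.Lib.MP_2c6a66_lc.LB.Local
import Pool.Agent.Lib.MP_2c6a66_lc.UB.General
import Pool.Agent.Lib.MP_2c6a66_lc.Marginal

/-! Truthful-in-expectation mechanisms with ratio `c` exist for all numbers of jobs if and only if
there is a profile with bound `c - 1`. -/

namespace Pool.Agent.Lib.MP_2c6a66_lc

open scoped NNReal Topology
open Filter

noncomputable section

open UB (Prof)
open LB (HasMechanism)

/-- lower bound direction -/
theorem prof_of_mechanisms {c : ℝ} (H : ∀ n, HasMechanism n c) : ∃ w, Prof (c - 1) w := by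
  obtain ⟨p, hp⟩ := LB.exists_reg (LB.fam_of_hasMechanism H)
  have w0 : ∀ z, 0 ≤ LB.ww p z := fun z => by
    have := hp.le_one ((1, z), 0); unfold LB.ww; linarith
  have w1 : ∀ z, LB.ww p z ≤ 1 := fun z => by
    have := hp.nonneg ((1, z), 0); unfold LB.ww; linarith
  have hstar : ∀ x y : ℝ, 0 < y → 1 + y < x →
      y * LB.ww p y.toNNReal + (x - 1 - y) * LB.ww p x.toNNReal ≤ c - 1 := by
    intro x y hy hx
    have hx0 : 0 < x := by linarith
    have := LB.star hp (x := x.toNNReal) (y := y.toNNReal) (by simpa using hy)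
      (by
        rw [← NNReal.coe_lt_coe]
        push_cast
        rw [Real.coe_toNNReal _ hy.le, Real.coe_toNNReal _ hx0.le]
        exact hx)
    rwa [Real.coe_toNNReal _ hy.le, Real.coe_toNNReal _ hx0.le] at this
  refine ⟨fun x => LB.ww p x.toNNReal, ⟨fun x _ => w0 _, fun x _ => w1 _, ?_, ?_, ?_⟩⟩
  · intro x y _ hxy
    have := hp.mono (a := 1) (Real.toNNReal_le_toNNReal hxy)
    simp only [LB.ww]; linarith
  · intro x hx
    set X := x.toNNReal with hX
    have hX0 : 0 < X := by simpa [hX] using hx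
    have e : (1 / x).toNNReal = 1 / X := by
      rw [hX, one_div, one_div, Real.toNNReal_inv]
    have h1 := hp.scale X (1, 1 / X) 0 hX0
    simp only [LB.scT, Multiset.map_zero, mul_one, mul_one_div_cancel hX0.ne'] at h1
    have h2 := hp.swap0 1 X
    rw [e]
    simp only [LB.ww]
    linarith
  · intro x y hy hx
    rcases hx.eq_or_lt with h | h
    · have h1 := hstar (x + 1) y hy (by linarith)
      have h2 := mul_nonneg (by linarith : 0 ≤ x + 1 - 1 - y) (w0 (x + 1).toNNReal)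
      have h3 : (x - 1 - y) * LB.ww p x.toNNReal = 0 := by rw [← h]; ring
      linarith
    · exact hstar x y hy h

/-- upper bound direction -/
theorem mechanism_of_prof {c : ℝ} {w : ℝ → ℝ} (hw : Prof (c - 1) w) (n : ℕ) :
    HasMechanism n c := by
  refine ⟨fun b => law (UB.asg w b), UB.pay w, fun b hb => ⟨fun σ => law_nonneg _ _,
    UB.law_sum_one b, fun i r hr => UB.truthful hw hb i hr, fun τ => ?_⟩⟩
  have := UB.ratio hw hb τ
  rw [add_sub_cancel] at this
  exact this

theorem mechanisms_iff {c : ℝ} : (∀ n, HasMechanism n c) ↔ ∃ w, Prof (c - 1) w :=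
  ⟨prof_of_mechanisms, fun ⟨_, hw⟩ n => mechanism_of_prof hw n⟩

theorem Prof.mono {κ κ' : ℝ} {w : ℝ → ℝ} (hw : Prof κ w) (h : κ ≤ κ') : Prof κ' w :=
  ⟨hw.nonneg, hw.le_one, hw.anti, hw.symm, fun x y hy hx => (hw.star x y hy hx).trans h⟩

/-- numerical lower bound -/
theorem kappa_ge {κ : ℝ} {w : ℝ → ℝ} (hw : Prof κ w) : 85 / 168 ≤ κ := by
  have h1 := hw.star (15 / 8) (8 / 17) (by norm_num) (by norm_num)
  have h2 := hw.star (15 / 8) (8 / 15) (by norm_num) (by norm_num)
  have h3 := hw.star (17 / 8) 1 (by norm_num) (by norm_num)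
  have s1 := hw.symm (17 / 8) (by norm_num)
  have s2 := hw.symm (15 / 8) (by norm_num)
  have s3 := hw.one
  norm_num at h1 h2 h3 s1 s2
  have := hw.nonneg (15 / 8) (by norm_num)
  have := hw.nonneg (17 / 8) (by norm_num)
  linarith

/-- the profile of ratio 1.506 -/
theorem prof_506 : Prof 0.506 (fun x => m x 1) := by
  refine ⟨fun x hx => m_nonneg hx.le zero_le_one, fun x hx => m_le_one hx.le zero_le_one,
    fun x y hx hxy => m_anti hx.le zero_le_one hxy, fun x hx => ?_, fun x y hy hx => ?_⟩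
  · have h1 := m_homog (a := 1) (b := 1 / x) hx
    rw [mul_one, mul_one_div_cancel hx.ne'] at h1
    rw [h1]
    have := m_add (1 / x) 1
    linarith
  · have := star hy.le (by linarith : y ≤ x)
    linarith

/-- the set of normalised profiles -/
def PK (κ : ℝ) : Set (ℝ → ℝ) := {w | (∀ x, w x ∈ Set.Icc (0 : ℝ) 1) ∧ Prof κ w}

theorem PK_eq (κ : ℝ) : PK κ = (Set.pi Set.univ fun _ => Set.Icc (0 : ℝ) 1) ∩
    {w | (∀ x y, 0 < x → x ≤ y → w y ≤ w x) ∧ (∀ x, 0 < x → w x + w (1 / x) = 1)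
      ∧ (∀ x y, 0 < y → 1 + y ≤ x → y * w y + (x - 1 - y) * w x ≤ κ)} := by
  ext w
  constructor
  · rintro ⟨h, hw⟩
    exact ⟨fun x _ => h x, hw.anti, hw.symm, hw.star⟩
  · rintro ⟨h, h1, h2, h3⟩
    exact ⟨fun x => h x trivial, ⟨fun x _ => (h x trivial).1, fun x _ => (h x trivial).2,
      h1, h2, h3⟩⟩

theorem isClosed_cond (κ : ℝ) : IsClosed {w : ℝ → ℝ | (∀ x y, 0 < x → x ≤ y → w y ≤ w x)
    ∧ (∀ x, 0 < x → w x + w (1 / x) = 1)
    ∧ (∀ x y, 0 < y → 1 + y ≤ x → y * w y + (x - 1 - y) * w x ≤ κ)} := by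
  simp only [Set.ofPred_and, Set.ofPred_forall]
  refine IsClosed.inter ?_ (IsClosed.inter ?_ ?_)
  · refine isClosed_iInter fun x => isClosed_iInter fun y => isClosed_iInter fun _ =>
      isClosed_iInter fun _ => isClosed_le ?_ ?_ <;> fun_prop
  · refine isClosed_iInter fun x => isClosed_iInter fun _ => isClosed_eq ?_ ?_ <;> fun_prop
  · refine isClosed_iInter fun x => isClosed_iInter fun y => isClosed_iInter fun _ =>
      isClosed_iInter fun _ => isClosed_le ?_ ?_ <;> fun_prop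

theorem isCompact_PK (κ : ℝ) : IsCompact (PK κ) := by
  rw [PK_eq]
  exact (isCompact_univ_pi fun _ => isCompact_Icc).inter_right (isClosed_cond κ)

theorem PK_nonempty {κ : ℝ} (h : ∃ w, Prof κ w) : (PK κ).Nonempty := by
  obtain ⟨w, hw⟩ := h
  refine ⟨fun x => if 0 < x then w x else 0, fun x => ?_, ⟨?_, ?_, ?_, ?_, ?_⟩⟩
  · dsimp only
    split_ifs with hx
    · exact ⟨hw.nonneg x hx, hw.le_one x hx⟩
    · simp
  · intro x hx; simp only [if_pos hx]; exact hw.nonneg x hx
  · intro x hx; simp only [if_pos hx]; exact hw.le_one x hx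
  · intro x y hx hxy
    simp only [if_pos hx, if_pos (hx.trans_le hxy)]
    exact hw.anti x y hx hxy
  · intro x hx
    have : 0 < 1 / x := by positivity
    simp only [if_pos hx, if_pos this]
    exact hw.symm x hx
  · intro x y hy hx
    have : 0 < x := by linarith
    simp only [if_pos hy, if_pos this]
    exact hw.star x y hy hx

/-- there is a smallest constant -/
theorem exists_least : ∃ κ : ℝ, ∀ κ' : ℝ, (∃ w, Prof κ' w) ↔ κ ≤ κ' := by
  set S : Set ℝ := {κ | ∃ w, Prof κ w} with hS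
  have hne : S.Nonempty := ⟨_, _, prof_506⟩
  have hbdd : BddBelow S := ⟨85 / 168, fun κ ⟨_, hw⟩ => kappa_ge hw⟩
  have hup : ∀ κ ∈ S, ∀ κ', κ ≤ κ' → κ' ∈ S := fun κ ⟨w, hw⟩ κ' h => ⟨w, Prof.mono hw h⟩
  have hmem : sInf S ∈ S := by
    let K : ℕ → Set (ℝ → ℝ) := fun n => PK (sInf S + 1 / ((n : ℝ) + 1))
    have hK : ∀ n, (K n).Nonempty := by
      intro n
      obtain ⟨κ, hκ, hlt⟩ := exists_lt_of_csInf_lt hne
        (show sInf S < sInf S + 1 / ((n : ℝ) + 1) by
          have : (0 : ℝ) < 1 / ((n : ℝ) + 1) := by positivity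
          linarith)
      exact PK_nonempty (hup κ hκ _ hlt.le)
    have hanti : ∀ n, K (n + 1) ⊆ K n := by
      intro n w hw
      refine ⟨hw.1, Prof.mono hw.2 ?_⟩
      have : 1 / (((n + 1 : ℕ) : ℝ) + 1) ≤ 1 / ((n : ℝ) + 1) := by
        apply one_div_le_one_div_of_le (by positivity)
        push_cast; linarith
      linarith
    obtain ⟨w, hw⟩ := IsCompact.nonempty_iInter_of_sequence_nonempty_isCompact_isClosed K hanti hK
      (isCompact_PK _) (fun n => (isCompact_PK _).isClosed)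
    have hw' : ∀ n, w ∈ K n := fun n => Set.mem_iInter.1 hw n
    refine ⟨w, ⟨(hw' 0).2.nonneg, (hw' 0).2.le_one, (hw' 0).2.anti, (hw' 0).2.symm, ?_⟩⟩
    intro x y hy hx
    have ht : Tendsto (fun n : ℕ => sInf S + 1 / ((n : ℝ) + 1)) atTop (𝓝 (sInf S + 0)) :=
      tendsto_const_nhds.add tendsto_one_div_add_atTop_nhds_zero_nat
    rw [add_zero] at ht
    exact ge_of_tendsto' ht fun n => (hw' n).2.star x y hy hx
  exact ⟨sInf S, fun κ' => ⟨fun h => csInf_le hbdd h, fun h => hup _ hmem _ h⟩⟩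

end

end Pool.Agent.Lib.MP_2c6a66_lc
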