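import Pool.Agent.Lib.MP_2c6a66_lc.Marginal

/-! The mechanism: task independent marginals `m`, coupled comonotonically around an optimal
assignment of the reported instance. -/

namespace Pool.Agent.Lib.MP_2c6a66_lc

open MeasureTheory Set

noncomputable section

variable {n : ℕ}

/-- load of machine `i` with times `t` under assignment `σ` -/
def load (i : Fin 2) (t : Fin n → ℝ) (σ : Fin n → Fin 2) : ℝ := ∑ k with σ k = i, t k

/-- makespan -/
def mk (b : Fin 2 → Fin n → ℝ) (σ : Fin n → Fin 2) : ℝ := max (load 0 (b 0) σ) (load 1 (b 1) σ)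

/-- an optimal assignment -/
def opt (b : Fin 2 → Fin n → ℝ) : Fin n → Fin 2 :=
  Classical.choose (Finite.exists_min (mk b))

theorem opt_le (b : Fin 2 → Fin n → ℝ) (τ : Fin n → Fin 2) : mk b (opt b) ≤ mk b τ :=
  Classical.choose_spec (Finite.exists_min (mk b)) τ

/-- probability that job `k` is moved away from its optimal machine -/
def mv (b : Fin 2 → Fin n → ℝ) (k : Fin n) : ℝ := m (b (1 - opt b k) k) (b (opt b k) k)

/-- the assignment as a function of the uniform variable -/
def asg (b : Fin 2 → Fin n → ℝ) (U : ℝ) (k : Fin n) : Fin 2 :=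
  if U ≤ mv b k then 1 - opt b k else opt b k

theorem asg_measurable (b : Fin 2 → Fin n → ℝ) (σ : Fin n → Fin 2) :
    MeasurableSet {U | asg b U = σ} := by
  have : {U | asg b U = σ} = ⋂ k, {U | asg b U k = σ k} := by
    ext U; simp [funext_iff]
  rw [this]
  refine MeasurableSet.iInter fun k => ?_
  have hm : Measurable (fun U => asg b U k) :=
    Measurable.ite measurableSet_Iic measurable_const measurable_const
  exact hm (measurableSet_singleton (σ k))

theorem fin2_ne {i j : Fin 2} (h : i ≠ j) : 1 - i = j := by
  revert i j; decide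

theorem fin2_ne' (i : Fin 2) : 1 - i ≠ i := by
  revert i; decide

theorem ind_asg (b : Fin 2 → Fin n → ℝ) (U : ℝ) (k : Fin n) (i : Fin 2) :
    (if asg b U k = i then (1 : ℝ) else 0)
      = if opt b k = i then 1 - ind (mv b k) U else ind (mv b k) U := by
  unfold asg ind
  by_cases h : U ≤ mv b k
  · simp only [if_pos h]
    by_cases h2 : opt b k = i
    · rw [if_pos h2, if_neg (by rw [h2]; exact fin2_ne' i)]; norm_num
    · rw [if_neg h2, if_pos (fin2_ne h2)]
  · simp only [if_neg h]
    by_cases h2 : opt b k = i
    · rw [if_pos h2, if_pos h2]; norm_num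
    · rw [if_neg h2, if_neg h2]

section nn

variable {b : Fin 2 → Fin n → ℝ} (hb : ∀ i k, 0 ≤ b i k)

include hb

theorem mv_nonneg (k : Fin n) : 0 ≤ mv b k := m_nonneg (hb _ _) (hb _ _)

theorem mv_le_one (k : Fin n) : mv b k ≤ 1 := m_le_one (hb _ _) (hb _ _)

theorem marginal (k : Fin n) (i : Fin 2) :
    ∫ U in Ioc (0 : ℝ) 1, (if asg b U k = i then (1 : ℝ) else 0) = m (b i k) (b (1 - i) k) := by
  simp only [ind_asg]
  by_cases h : opt b k = i
  · simp only [if_pos h]
    have i1 : IntegrableOn (fun _ : ℝ => (1 : ℝ)) (Ioc 0 1) := integrable_const 1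
    rw [integral_sub i1 (integrable_ind _), integral_ind (mv_nonneg hb k) (mv_le_one hb k)]
    have := m_add (b i k) (b (1 - i) k)
    simp only [mv, h]
    simp
    linarith
  · simp only [if_neg h]
    rw [integral_ind (mv_nonneg hb k) (mv_le_one hb k), mv, fin2_ne h,
      ← fin2_ne h, show (1 : Fin 2) - (1 - opt b k) = opt b k by omega]

/-- expected load of machine `i` -/
theorem expected_load (t : Fin n → ℝ) (i : Fin 2) :
    ∑ σ, law (asg b) σ * load i t σ = ∑ k, t k * m (b i k) (b (1 - i) k) := by
  rw [sum_law _ (asg_measurable b)]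
  have : ∀ U, load i t (asg b U) = ∑ k, t k * (if asg b U k = i then (1 : ℝ) else 0) := by
    intro U
    simp [load, Finset.sum_filter]
  simp only [this]
  have hint : ∀ k, IntegrableOn (fun U => (if asg b U k = i then (1 : ℝ) else 0)) (Ioc 0 1) := by
    intro k
    simp only [ind_asg]
    split_ifs
    · exact (integrable_const (1 : ℝ)).sub (integrable_ind _)
    · exact integrable_ind _
  rw [integral_finsetSum _ fun k _ => (hint k).const_mul _]
  refine Finset.sum_congr rfl fun k _ => ?_
  rw [integral_const_mul, marginal hb]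

/-- The approximation guarantee. -/
theorem ratio (τ : Fin n → Fin 2) :
    ∑ σ, law (asg b) σ * mk b σ ≤ 1.506 * mk b τ := by
  refine le_trans ?_ (mul_le_mul_of_nonneg_left (opt_le b τ) (by norm_num))
  rw [sum_law _ (asg_measurable b)]
  set T := mk b (opt b) with hT
  have h0T : load 0 (b 0) (opt b) ≤ T := le_max_left _ _
  have h1T : load 1 (b 1) (opt b) ≤ T := le_max_right _ _
  have hTn : 0 ≤ T := le_trans (Finset.sum_nonneg fun k _ => hb 0 k) h0T
  -- the slack job trick with any `T' > T`
  refine le_of_forall_pos_le_add fun ε hε => ?_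
  set T' := T + ε / 2 with hT'
  have hT'pos : 0 < T' := by linarith
  let c : Option (Fin n) → ℝ := fun o => o.elim (T' - load 0 (b 0) (opt b))
    (fun k => if opt b k = 0 then b 0 k else 0)
  let d : Option (Fin n) → ℝ := fun o => o.elim 0 (fun k => if opt b k = 0 then b 1 k else 0)
  let q : Option (Fin n) → ℝ := fun o => o.elim (m 0 (T' - load 0 (b 0) (opt b))) (mv b)
  let c' : Option (Fin n) → ℝ := fun o => o.elim (T' - load 1 (b 1) (opt b))
    (fun k => if opt b k = 1 then b 1 k else 0)
  let d' : Option (Fin n) → ℝ := fun o => o.elim 0 (fun k => if opt b k = 1 then b 0 k else 0)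
  let q' : Option (Fin n) → ℝ := fun o => o.elim (m 0 (T' - load 1 (b 1) (opt b))) (mv b)
  have hc : ∀ o, 0 ≤ c o := by
    rintro (_ | k)
    · change 0 ≤ T' - load 0 (b 0) (opt b); linarith
    · change 0 ≤ if opt b k = 0 then b 0 k else 0
      split_ifs; exacts [hb _ _, le_rfl]
  have hd : ∀ o, 0 ≤ d o := by
    rintro (_ | k)
    · exact le_rfl
    · change 0 ≤ if opt b k = 0 then b 1 k else 0
      split_ifs; exacts [hb _ _, le_rfl]
  have hc' : ∀ o, 0 ≤ c' o := by
    rintro (_ | k)
    · change 0 ≤ T' - load 1 (b 1) (opt b); linarith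
    · change 0 ≤ if opt b k = 1 then b 1 k else 0
      split_ifs; exacts [hb _ _, le_rfl]
  have hd' : ∀ o, 0 ≤ d' o := by
    rintro (_ | k)
    · exact le_rfl
    · change 0 ≤ if opt b k = 1 then b 0 k else 0
      split_ifs; exacts [hb _ _, le_rfl]
  have hs0 : 0 ≤ T' - load 0 (b 0) (opt b) := by linarith
  have hs1 : 0 ≤ T' - load 1 (b 1) (opt b) := by linarith
  have hq0 : ∀ o, 0 ≤ q o := by
    rintro (_ | k)
    exacts [m_nonneg le_rfl hs0, mv_nonneg hb k]
  have hq1 : ∀ o, q o ≤ 1 := by
    rintro (_ | k)
    exacts [m_le_one le_rfl hs0, mv_le_one hb k]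
  have hq0' : ∀ o, 0 ≤ q' o := by
    rintro (_ | k)
    exacts [m_nonneg le_rfl hs1, mv_nonneg hb k]
  have hq1' : ∀ o, q' o ≤ 1 := by
    rintro (_ | k)
    exacts [m_le_one le_rfl hs1, mv_le_one hb k]
  have hsum : ∑ o, c o = T' := by
    rw [Fintype.sum_option]
    change T' - load 0 (b 0) (opt b) + ∑ k, (if opt b k = 0 then b 0 k else 0) = T'
    rw [load, Finset.sum_filter]; ring
  have hsum' : ∑ o, c' o = T' := by
    rw [Fintype.sum_option]
    change T' - load 1 (b 1) (opt b) + ∑ k, (if opt b k = 1 then b 1 k else 0) = T'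
    rw [load, Finset.sum_filter]; ring
  have hg : ∀ o, Good (c o) (d o) (q o) := by
    rintro (_ | k)
    · exact Or.inr rfl
    · by_cases h : opt b k = 0
      · right
        change mv b k = m (if opt b k = 0 then b 1 k else 0) (if opt b k = 0 then b 0 k else 0)
        rw [if_pos h, if_pos h, mv, h]; rfl
      · left
        change (if opt b k = 0 then b 0 k else 0) = 0 ∧ (if opt b k = 0 then b 1 k else 0) = 0
        rw [if_neg h, if_neg h]; exact ⟨rfl, rfl⟩
  have hg' : ∀ o, Good (c' o) (d' o) (q' o) := by
    rintro (_ | k)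
    · exact Or.inr rfl
    · by_cases h : opt b k = 1
      · right
        change mv b k = m (if opt b k = 1 then b 0 k else 0) (if opt b k = 1 then b 1 k else 0)
        rw [if_pos h, if_pos h, mv, h]; rfl
      · left
        change (if opt b k = 1 then b 1 k else 0) = 0 ∧ (if opt b k = 1 then b 0 k else 0) = 0
        rw [if_neg h, if_neg h]; exact ⟨rfl, rfl⟩
  have hmain := coupling_bound 0.506 T' hT'pos c d q c' d' q' hc hd hc' hd' hq0 hq1 hq0' hq1'
    hsum hsum' fun i j => pairOK_of_good (hc i) (hd i) (hc' j) (hd' j) (hq0 i) (hq0' j) (hg i)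
      (hg' j)
  have hle : ∫ U in Ioc (0 : ℝ) 1, mk b (asg b U) ≤
      ∫ U in Ioc (0 : ℝ) 1, max (∑ i, c i * (1 - ind (q i) U) + ∑ j, d' j * ind (q' j) U)
      (∑ j, c' j * (1 - ind (q' j) U) + ∑ i, d i * ind (q i) U) := by
    have hI : ∀ (q : Option (Fin n) → ℝ) (c : Option (Fin n) → ℝ),
        IntegrableOn (fun U => ∑ i, c i * (1 - ind (q i) U)) (Ioc 0 1) := fun q c =>
      integrable_finsetSum _ fun i _ =>
            (((integrable_const (1 : ℝ)).sub (integrable_ind (q i))).const_mul _)
    have hI' : ∀ (q : Option (Fin n) → ℝ) (c : Option (Fin n) → ℝ),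
        IntegrableOn (fun U => ∑ i, c i * ind (q i) U) (Ioc 0 1) := fun q c =>
      integrable_finsetSum _ fun i _ => ((integrable_ind (q i)).const_mul _)
    have hR : IntegrableOn (fun U => max (∑ i, c i * (1 - ind (q i) U) +
        ∑ j, d' j * ind (q' j) U) (∑ j, c' j * (1 - ind (q' j) U) + ∑ i, d i * ind (q i) U))
        (Ioc 0 1) := Integrable.sup ((hI q c).add (hI' q' d')) ((hI q' c').add (hI' q d))
    have hpt : ∀ U, mk b (asg b U) ≤ max (∑ i, c i * (1 - ind (q i) U) +
        ∑ j, d' j * ind (q' j) U) (∑ j, c' j * (1 - ind (q' j) U) + ∑ i, d i * ind (q i) U) := by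
      intro U
      have hload : ∀ i : Fin 2, load i (b i) (asg b U) =
          ∑ k, b i k * (if opt b k = i then 1 - ind (mv b k) U else ind (mv b k) U) := by
        intro i
        simp only [← ind_asg]
        simp [load, Finset.sum_filter]
      apply max_le_max
      · rw [hload 0, Fintype.sum_option, Fintype.sum_option]
        have h1 : 0 ≤ c none * (1 - ind (q none) U) :=
          mul_nonneg (hc _) (by linarith [ind_le_one (q none) U])
        have h2 : 0 ≤ d' none * ind (q' none) U := mul_nonneg (hd' _) (ind_nonneg _ _)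
        have h3 : ∑ k, b 0 k * (if opt b k = 0 then 1 - ind (mv b k) U else ind (mv b k) U)
            = ∑ k, c (some k) * (1 - ind (q (some k)) U) + ∑ k, d' (some k) * ind (q' (some k)) U
            := by
          rw [← Finset.sum_add_distrib]
          refine Finset.sum_congr rfl fun k _ => ?_
          change _ = (if opt b k = 0 then b 0 k else 0) * (1 - ind (mv b k) U) +
            (if opt b k = 1 then b 0 k else 0) * ind (mv b k) U
          by_cases h : opt b k = 0
          · rw [if_pos h, if_pos h, if_neg (by rw [h]; decide)]; ring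
          · rw [if_neg h, if_neg h, if_pos (by omega)]; ring
        rw [h3]
        linarith
      · rw [hload 1, Fintype.sum_option, Fintype.sum_option]
        have h1 : 0 ≤ c' none * (1 - ind (q' none) U) :=
          mul_nonneg (hc' _) (by linarith [ind_le_one (q' none) U])
        have h2 : 0 ≤ d none * ind (q none) U := mul_nonneg (hd _) (ind_nonneg _ _)
        have h3 : ∑ k, b 1 k * (if opt b k = 1 then 1 - ind (mv b k) U else ind (mv b k) U)
            = ∑ k, c' (some k) * (1 - ind (q' (some k)) U) + ∑ k, d (some k) * ind (q (some k)) U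
            := by
          rw [← Finset.sum_add_distrib]
          refine Finset.sum_congr rfl fun k _ => ?_
          change _ = (if opt b k = 1 then b 1 k else 0) * (1 - ind (mv b k) U) +
            (if opt b k = 0 then b 1 k else 0) * ind (mv b k) U
          by_cases h : opt b k = 0
          · rw [if_pos h, if_neg (by rw [h]; decide), if_neg (by rw [h]; decide)]; ring
          · rw [if_neg h, if_pos (by omega), if_pos (by omega)]; ring
        rw [h3]
        linarith
    have hL : IntegrableOn (fun U => mk b (asg b U)) (Ioc 0 1) := by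
      have : (fun U => mk b (asg b U)) =
          fun U => ∑ σ, ({U | asg b U = σ} : Set ℝ).indicator (fun _ => mk b σ) U := by
        funext U
        simp [Set.indicator]
      rw [this]
      exact integrable_finsetSum _ fun σ _ =>
        (integrable_const (mk b σ)).indicator (asg_measurable b σ)
    exact integral_mono hL hR hpt
  have := hle.trans hmain
  have e : (1 + 0.506 : ℝ) * T' = 1.506 * T + 0.753 * ε := by rw [hT']; ring
  linarith

end nn

/-- the payment to agent `i` -/
def pay (b : Fin 2 → Fin n → ℝ) (i : Fin 2) : ℝ :=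
  ∑ k, (b i k * m (b i k) (b (1 - i) k) +
    ∫ s in (b i k)..(3 * b (1 - i) k), m s (b (1 - i) k))

theorem m_intervalIntegrable {x y o : ℝ} (hx : 0 ≤ x) (hy : 0 ≤ y) (ho : 0 ≤ o) :
    IntervalIntegrable (fun s => m s o) volume x y := by
  apply AntitoneOn.intervalIntegrable
  intro a ha a' ha' h
  have : 0 ≤ a := by
    rw [mem_uIcc] at ha
    rcases ha with h | h <;> linarith
  exact m_anti this ho h

/-- Monotonicity: the single job truthfulness inequality. -/
theorem single_truth {t r o : ℝ} (ht : 0 ≤ t) (hr : 0 ≤ r) (ho : 0 ≤ o) :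
    (r - t) * m r o ≤ ∫ s in t..r, m s o := by
  rcases le_total t r with h | h
  · have : ∫ s in t..r, m r o ≤ ∫ s in t..r, m s o := by
      apply intervalIntegral.integral_mono_on h
      · exact intervalIntegrable_const
      · exact m_intervalIntegrable ht hr ho
      · intro s hs
        exact m_anti (ht.trans hs.1) ho hs.2
    rw [intervalIntegral.integral_const, smul_eq_mul] at this
    exact this
  · rw [intervalIntegral.integral_symm]
    have : ∫ s in r..t, m s o ≤ ∫ s in r..t, m r o := by
      apply intervalIntegral.integral_mono_on h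
      · exact m_intervalIntegrable hr ht ho
      · exact intervalIntegrable_const
      · intro s hs
        exact m_anti hr ho hs.1
    rw [intervalIntegral.integral_const, smul_eq_mul] at this
    linarith

theorem tail_nonneg {t o : ℝ} (ht : 0 ≤ t) (ho : 0 ≤ o) : 0 ≤ ∫ s in t..(3 * o), m s o := by
  rcases le_total t (3 * o) with h | h
  · apply intervalIntegral.integral_nonneg h
    intro s hs
    exact m_nonneg (ht.trans hs.1) ho
  · rw [intervalIntegral.integral_symm, intervalIntegral.integral_zero_ae]
    · simp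
    · refine Filter.Eventually.of_forall fun s hs => ?_
      rw [uIoc_of_le h] at hs
      exact m_large ho hs.1

theorem truthful {b : Fin 2 → Fin n → ℝ} (hb : ∀ i k, 0 ≤ b i k) (i : Fin 2)
    {r : Fin n → ℝ} (hr : ∀ k, 0 ≤ r k) :
    pay (Function.update b i r) i -
        ∑ σ, law (asg (Function.update b i r)) σ * load i (b i) σ
      ≤ pay b i - ∑ σ, law (asg b) σ * load i (b i) σ := by
  have hb' : ∀ j k, 0 ≤ Function.update b i r j k := by
    intro j k
    by_cases h : j = i
    · subst h; rw [Function.update_self]; exact hr k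
    · rw [Function.update_of_ne h]; exact hb j k
  rw [expected_load hb', expected_load hb]
  simp only [pay, Function.update_self, Function.update_of_ne (fin2_ne' i)]
  rw [← Finset.sum_sub_distrib, ← Finset.sum_sub_distrib]
  refine Finset.sum_le_sum fun k _ => ?_
  have h1 := single_truth (hb i k) (hr k) (hb (1 - i) k)
  have h2 := intervalIntegral.integral_add_adjacent_intervals
    (m_intervalIntegrable (hb i k) (hr k) (hb (1 - i) k))
    (m_intervalIntegrable (hr k) (by have := hb (1 - i) k; positivity : 0 ≤ 3 * b (1 - i) k)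
      (hb (1 - i) k))
  rw [← h2]
  linarith

theorem participation {b : Fin 2 → Fin n → ℝ} (hb : ∀ i k, 0 ≤ b i k) (i : Fin 2) :
    0 ≤ pay b i - ∑ σ, law (asg b) σ * load i (b i) σ := by
  rw [expected_load hb, pay, ← Finset.sum_sub_distrib]
  refine Finset.sum_nonneg fun k _ => ?_
  have := tail_nonneg (hb i k) (hb (1 - i) k)
  linarith

theorem law_sum_one (b : Fin 2 → Fin n → ℝ) : ∑ σ, law (asg b) σ = 1 := by
  have := sum_law _ (asg_measurable b) (fun _ => (1 : ℝ))
  simpa using this

end

end Pool.Agent.Lib.MP_2c6a66_lc
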