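import Pool.Agent.Lib.MP_2c6a66_lc.UB.General

/-! Numerical bounds for the value of the one-variable minimax problem: an explicit piecewise
linear profile with 17 knots, checked by exact rational arithmetic, and a chain of five points
for the lower bound. -/

namespace Pool.Agent.Lib.MP_2c6a66_lc.Numeric

open UB (Prof)

/-- segment: `(a, b, u, v)`, linear from `u` at `a` to `v` at `b` -/
abbrev Seg := ℚ × ℚ × ℚ × ℚ

/-- piecewise linear function attached to a list of segments -/
noncomputable def pl : List Seg → ℝ → ℝ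
  | [] => fun _ => 0
  | (a, b, u, v) :: l => fun x =>
      if x ≤ b then (u : ℝ) + (v - u) * ((x - a) / (b - a)) else pl l x

/-- consistency of the list of segments -/
def ok : ℚ → ℚ → List Seg → Bool
  | _, u, [] => decide (u = 0)
  | a, u, (a', b, u', v) :: l =>
      decide (a' = a) && decide (u' = u) && decide (a < b) && decide (v ≤ u) && ok b v l

/-- test for a concave quadratic on one segment -/
def chk (E p q : ℚ) (s : Seg) : Bool :=
  let c0 := E + (p * s.1 + q) * s.2.2.1
  let c2 := E + (p * s.2.1 + q) * s.2.2.2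
  let c1 := E + ((p * s.1 + q) * s.2.2.2 + (p * s.2.1 + q) * s.2.2.1) / 2
  decide (c0 ≤ 0) && decide (c2 ≤ 0) && (decide (c1 ≤ 0) || decide (c1 * c1 ≤ c0 * c2))

/-- test on all segments -/
def allchk (l : List Seg) (E p q : ℚ) : Bool := decide (E ≤ 0) && l.all (chk E p q)

theorem ok_cons {a u a' b u' v : ℚ} {l : List Seg} (h : ok a u ((a', b, u', v) :: l) = true) :
    a' = a ∧ u' = u ∧ a < b ∧ v ≤ u ∧ ok b v l = true := by
  simp only [ok, Bool.and_eq_true, decide_eq_true_eq] at h
  obtain ⟨⟨⟨⟨h1, h2⟩, h3⟩, h4⟩, h5⟩ := h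
  exact ⟨h1, h2, h3, h4, h5⟩

theorem pl_bounds {l : List Seg} : ∀ {a u : ℚ}, ok a u l = true → ∀ x : ℝ, (a : ℝ) ≤ x →
    0 ≤ pl l x ∧ pl l x ≤ u := by
  induction l with
  | nil =>
    intro a u h x _
    simp only [ok, decide_eq_true_eq] at h
    simp [pl, h]
  | cons s l ih =>
    obtain ⟨a', b, u', v⟩ := s
    intro a u h x hx
    obtain ⟨rfl, rfl, hab, hvu, hl⟩ := ok_cons h
    have hab' : (a' : ℝ) < b := by exact_mod_cast hab
    have hvu' : (v : ℝ) ≤ u' := by exact_mod_cast hvu
    have hv := (ih hl b le_rfl)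
    have hv0 : (0 : ℝ) ≤ v := hv.1.trans hv.2
    by_cases hxb : x ≤ b
    · simp only [pl, if_pos hxb]
      have t0 : 0 ≤ (x - a') / (b - a') := div_nonneg (by linarith) (by linarith)
      have t1 : (x - a') / (b - a') ≤ 1 := by
        rw [div_le_one (by linarith)]; linarith
      constructor <;> nlinarith
    · simp only [pl, if_neg hxb]
      have := ih hl x (le_of_not_ge hxb)
      exact ⟨this.1, this.2.trans hvu'⟩

theorem pl_anti {l : List Seg} : ∀ {a u : ℚ}, ok a u l = true → ∀ x y : ℝ, (a : ℝ) ≤ x →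
    x ≤ y → pl l y ≤ pl l x := by
  induction l with
  | nil => intro a u _ x y _ _; simp [pl]
  | cons s l ih =>
    obtain ⟨a', b, u', v⟩ := s
    intro a u h x y hx hxy
    obtain ⟨rfl, rfl, hab, hvu, hl⟩ := ok_cons h
    have hab' : (a' : ℝ) < b := by exact_mod_cast hab
    have hvu' : (v : ℝ) ≤ u' := by exact_mod_cast hvu
    by_cases hxb : x ≤ b
    · by_cases hyb : y ≤ b
      · simp only [pl, if_pos hxb, if_pos hyb]
        have : (x - a') / (b - a') ≤ (y - a') / (b - a') :=
          div_le_div_of_nonneg_right (by linarith) (by linarith)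
        nlinarith
      · simp only [pl, if_pos hxb, if_neg hyb]
        have h1 := (pl_bounds hl y (le_of_not_ge hyb)).2
        have t1 : (x - a') / (b - a') ≤ 1 := by
          rw [div_le_one (by linarith)]; linarith
        nlinarith
    · have hyb : ¬ y ≤ b := fun h => hxb (hxy.trans h)
      simp only [pl, if_neg hxb, if_neg hyb]
      exact ih hl x y (le_of_not_ge hxb) hxy

theorem pl_start {l : List Seg} {a u : ℚ} (h : ok a u l = true) : pl l a = u := by
  cases l with
  | nil =>
    simp only [ok, decide_eq_true_eq] at h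
    simp [pl, h]
  | cons s l =>
    obtain ⟨a', b, u', v⟩ := s
    obtain ⟨rfl, rfl, hab, hvu, hl⟩ := ok_cons h
    have hab' : (a' : ℝ) < b := by exact_mod_cast hab
    simp only [pl, if_pos hab'.le]
    simp

theorem pl_cases {l : List Seg} : ∀ {a u : ℚ}, ok a u l = true → ∀ x : ℝ, (a : ℝ) ≤ x →
    (∃ s ∈ l, ∃ t : ℝ, 0 ≤ t ∧ t ≤ 1 ∧ x = s.1 + (s.2.1 - s.1) * t
      ∧ pl l x = s.2.2.1 + (s.2.2.2 - s.2.2.1) * t)
    ∨ (pl l x = 0 ∧ ∀ s ∈ l, (s.2.1 : ℝ) ≤ x) := by
  induction l with
  | nil => intro a u _ x _; right; simp [pl]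
  | cons s l ih =>
    obtain ⟨a', b, u', v⟩ := s
    intro a u h x hx
    obtain ⟨rfl, rfl, hab, hvu, hl⟩ := ok_cons h
    have hab' : (a' : ℝ) < b := by exact_mod_cast hab
    by_cases hxb : x ≤ b
    · left
      refine ⟨_, List.mem_cons_self, (x - a') / (b - a'),
        div_nonneg (by linarith) (by linarith), ?_, ?_, ?_⟩
      · rw [div_le_one (by linarith)]; linarith
      · have : (b : ℝ) - a' ≠ 0 := by linarith
        dsimp only
        rw [mul_div_cancel₀ _ this]; ring
      · simp only [pl, if_pos hxb]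
    · have hbx : (b : ℝ) ≤ x := le_of_not_ge hxb
      rcases ih hl x hbx with ⟨s, hs, t, h1⟩ | ⟨h1, h2⟩
      · left
        refine ⟨s, List.mem_cons_of_mem _ hs, t, ?_⟩
        simpa only [pl, if_neg hxb] using h1
      · right
        refine ⟨by simpa only [pl, if_neg hxb] using h1, ?_⟩
        intro s hs
        rcases List.mem_cons.1 hs with rfl | hs
        · exact hbx
        · exact h2 s hs

/-- quadratic in Bernstein form -/
theorem bern {c0 c1 c2 t : ℝ} (h0 : c0 ≤ 0) (h2 : c2 ≤ 0) (h1 : c1 ≤ 0 ∨ c1 * c1 ≤ c0 * c2)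
    (t0 : 0 ≤ t) (t1 : t ≤ 1) :
    (1 - t) * (1 - t) * c0 + 2 * (t * (1 - t)) * c1 + t * t * c2 ≤ 0 := by
  have s0 : 0 ≤ 1 - t := by linarith
  by_cases hc : c1 ≤ 0
  · have a1 := mul_nonneg (mul_nonneg s0 s0) (neg_nonneg.2 h0)
    have a2 := mul_nonneg (mul_nonneg t0 s0) (neg_nonneg.2 hc)
    have a3 := mul_nonneg (mul_nonneg t0 t0) (neg_nonneg.2 h2)
    nlinarith
  · have h1' : c1 * c1 ≤ c0 * c2 := h1.resolve_left hc
    have hc' : 0 < c1 := lt_of_not_ge hc
    have h0' : c0 < 0 := by
      rcases h0.lt_or_eq with h | h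
      · exact h
      · rw [h] at h1'; nlinarith
    -- multiply by c0 < 0
    by_contra hcon
    push Not at hcon
    have h3 := mul_neg_of_neg_of_pos h0' hcon
    have h4 : 0 ≤ ((1 - t) * c0 + t * c1) * ((1 - t) * c0 + t * c1)
        + t * t * (c0 * c2 - c1 * c1) :=
      add_nonneg (mul_self_nonneg _) (mul_nonneg (mul_nonneg t0 t0) (by linarith))
    nlinarith

theorem allchk_sound {l : List Seg} {a u : ℚ} (hok : ok a u l = true) {E p q : ℚ}
    (h : allchk l E p q = true) (x : ℝ) (hx : (a : ℝ) ≤ x) :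
    (E : ℝ) + (p * x + q) * pl l x ≤ 0 := by
  simp only [allchk, Bool.and_eq_true, decide_eq_true_eq, List.all_eq_true] at h
  obtain ⟨hE, hall⟩ := h
  rcases pl_cases hok x hx with ⟨s, hs, t, t0, t1, e1, e2⟩ | ⟨h0, _⟩
  · have hc := hall s hs
    simp only [chk, Bool.and_eq_true, Bool.or_eq_true, decide_eq_true_eq] at hc
    obtain ⟨⟨h0, h2⟩, h1⟩ := hc
    have h0' : (E : ℝ) + (p * s.1 + q) * s.2.2.1 ≤ 0 := by exact_mod_cast h0
    have h2' : (E : ℝ) + (p * s.2.1 + q) * s.2.2.2 ≤ 0 := by exact_mod_cast h2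
    have h1' : (E : ℝ) + ((p * s.1 + q) * s.2.2.2 + (p * s.2.1 + q) * s.2.2.1) / 2 ≤ 0
        ∨ ((E : ℝ) + ((p * s.1 + q) * s.2.2.2 + (p * s.2.1 + q) * s.2.2.1) / 2)
          * ((E : ℝ) + ((p * s.1 + q) * s.2.2.2 + (p * s.2.1 + q) * s.2.2.1) / 2)
          ≤ ((E : ℝ) + (p * s.1 + q) * s.2.2.1) * ((E : ℝ) + (p * s.2.1 + q) * s.2.2.2) := by
      rcases h1 with h1 | h1
      · left; exact_mod_cast h1
      · right; exact_mod_cast h1
    have := bern h0' h2' h1' t0 t1
    rw [e2, e1]
    refine le_trans (le_of_eq ?_) this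
    ring
  · rw [h0, mul_zero, add_zero]
    exact_mod_cast hE

/-- all tests for one segment of the other variable -/
def good (κ : ℚ) (l : List Seg) (s : Seg) : Bool :=
  allchk l (1 - s.2.2.1 - κ * s.1) s.1 (-(s.1 + 1))
    && allchk l (1 - s.2.2.2 - κ * s.2.1) s.2.1 (-(s.2.1 + 1))
    && allchk l (s.1 * s.2.2.1 - κ) 1 (-1 - s.1)
    && allchk l (s.2.1 * s.2.2.2 - κ) 1 (-1 - s.2.1)
    && allchk l ((s.1 * s.2.2.2 + s.2.1 * s.2.2.1) / 2 - κ) 1 (-1 - (s.1 + s.2.1) / 2)

/-- the profile attached to a list of segments -/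
noncomputable def wl (l : List Seg) (x : ℝ) : ℝ := if 1 ≤ x then pl l x else 1 - pl l (1 / x)

theorem prof_of_check {κ : ℚ} {l : List Seg} (hok : ok 1 (1 / 2) l = true)
    (hgood : l.all (good κ l) = true) (hlast : ∃ s ∈ l, s.2.2.2 = 0)
    (hinf : allchk l (-κ) 1 (-1) = true) : Prof (κ : ℝ) (wl l) := by
  have hok' : ∀ x : ℝ, 1 ≤ x → ((1 : ℚ) : ℝ) ≤ x := fun x hx => by simpa using hx
  have hb : ∀ x : ℝ, 1 ≤ x → 0 ≤ pl l x ∧ pl l x ≤ 1 / 2 := by
    intro x hx
    have := pl_bounds hok x (hok' x hx)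
    push_cast at this
    exact this
  have ha : ∀ x y : ℝ, 1 ≤ x → x ≤ y → pl l y ≤ pl l x := fun x y hx hxy =>
    pl_anti hok x y (hok' x hx) hxy
  have h1 : pl l 1 = 1 / 2 := by
    have := pl_start hok
    push_cast at this
    exact this
  have hinv : ∀ x : ℝ, 0 < x → ¬ 1 ≤ x → 1 ≤ 1 / x := by
    intro x hx h
    rw [le_div_iff₀ hx]; linarith
  have hκ : (0 : ℝ) ≤ κ := by
    have := allchk_sound hok hinf 1 (hok' 1 le_rfl)
    push_cast at this
    linarith
  refine ⟨?_, ?_, ?_, ?_, ?_⟩
  · intro x hx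
    unfold wl
    split_ifs with h
    · exact (hb x h).1
    · have := (hb _ (hinv x hx h)).2; linarith
  · intro x hx
    unfold wl
    split_ifs with h
    · have := (hb x h).2; linarith
    · have := (hb _ (hinv x hx h)).1; linarith
  · intro x y hx hxy
    unfold wl
    have hy : 0 < y := hx.trans_le hxy
    by_cases h : 1 ≤ x
    · rw [if_pos h, if_pos (h.trans hxy)]
      exact ha x y h hxy
    · rw [if_neg h]
      by_cases h' : 1 ≤ y
      · rw [if_pos h']
        have := (hb y h').2
        have := (hb _ (hinv x hx h)).2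
        linarith
      · rw [if_neg h']
        have := ha (1 / y) (1 / x) (hinv y hy h') (one_div_le_one_div_of_le hx hxy)
        linarith
  · intro x hx
    unfold wl
    rcases lt_trichotomy x 1 with h | h | h
    · rw [if_neg (not_le.2 h), if_pos (hinv x hx (not_le.2 h))]; ring
    · rw [h]; norm_num [h1]
    · rw [if_pos h.le, if_neg, one_div_one_div]
      · ring
      · rw [not_le, div_lt_one hx]; exact h
  · intro x y hy hx
    have hx1 : 1 ≤ x := by linarith
    have hfx := hb x hx1
    unfold wl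
    rw [if_pos hx1]
    have hall : ∀ s ∈ l, _ := fun s hs => List.all_eq_true.1 hgood s hs
    by_cases h : 1 ≤ y
    · rw [if_pos h]
      rcases pl_cases hok y (hok' y h) with ⟨s, hs, t, t0, t1, e1, e2⟩ | ⟨h0, _⟩
      · have hg := hall s hs
        simp only [good, Bool.and_eq_true] at hg
        obtain ⟨⟨⟨⟨_, _⟩, g3⟩, g4⟩, g5⟩ := hg
        have k3 := allchk_sound hok g3 x (hok' x hx1)
        have k4 := allchk_sound hok g4 x (hok' x hx1)
        have k5 := allchk_sound hok g5 x (hok' x hx1)
        push_cast at k3 k4 k5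
        have := bern k3 k4 (Or.inl k5) t0 t1
        rw [e2, e1]
        nlinarith
      · have hz : pl l x = 0 := le_antisymm (by
          have := ha y x h (by linarith)
          rwa [h0] at this) hfx.1
        rw [h0, hz]
        simpa using hκ
    · rw [if_neg h]
      have hz1 : 1 ≤ 1 / y := hinv y hy h
      set z := 1 / y with hz
      have hyz : y * z = 1 := by rw [hz]; field_simp
      have hz0 : 0 < z := by positivity
      -- it suffices to bound the function of z
      suffices hs : 1 - pl l z + (z * (x - 1) - 1) * pl l x ≤ κ * z by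
        have := mul_le_mul_of_nonneg_left hs hy.le
        have e : y * (1 - pl l z + (z * (x - 1) - 1) * pl l x)
            = y * (1 - pl l z) + ((y * z) * (x - 1) - y) * pl l x := by ring
        rw [e, hyz] at this
        have e' : y * (κ * z) = κ := by
          rw [mul_comm (κ : ℝ) z, ← mul_assoc, hyz, one_mul]
        rw [e'] at this
        linarith
      rcases pl_cases hok z (hok' z hz1) with ⟨s, hs, t, t0, t1, e1, e2⟩ | ⟨h0, h0'⟩
      · have hg := hall s hs
        simp only [good, Bool.and_eq_true] at hg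
        obtain ⟨⟨⟨⟨g1, g2⟩, _⟩, _⟩, _⟩ := hg
        have k1 := allchk_sound hok g1 x (hok' x hx1)
        have k2 := allchk_sound hok g2 x (hok' x hx1)
        push_cast at k1 k2
        have m1 := mul_nonneg (sub_nonneg.2 t1) (neg_nonneg.2 k1)
        have m2 := mul_nonneg t0 (neg_nonneg.2 k2)
        rw [e2, e1]
        nlinarith
      · obtain ⟨s, hs, hs0⟩ := hlast
        have hg := hall s hs
        simp only [good, Bool.and_eq_true] at hg
        obtain ⟨⟨⟨⟨_, g2⟩, _⟩, _⟩, _⟩ := hg
        have k2 := allchk_sound hok g2 x (hok' x hx1)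
        have k4 := allchk_sound hok hinf x (hok' x hx1)
        rw [hs0] at k2
        push_cast at k2 k4
        have hb := h0' s hs
        have m1 := mul_nonneg (sub_nonneg.2 hb) (neg_nonneg.2 k4)
        rw [h0]
        nlinarith

/-- the explicit profile -/
def segs : List Seg :=
  [(10000 / 10000, 10010 / 10000, 500000000 / 1000000000, 499547633 / 1000000000),
  (10010 / 10000, 10040 / 10000, 499547633 / 1000000000, 498192265 / 1000000000),
  (10040 / 10000, 10165 / 10000, 498192265 / 1000000000, 492565150 / 1000000000),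
  (10165 / 10000, 10500 / 10000, 492565150 / 1000000000, 477662948 / 1000000000),
  (10500 / 10000, 12067 / 10000, 477662948 / 1000000000, 410057716 / 1000000000),
  (12067 / 10000, 18200 / 10000, 410057716 / 1000000000, 164623999 / 1000000000),
  (18200 / 10000, 18550 / 10000, 164623999 / 1000000000, 150807322 / 1000000000),
  (18550 / 10000, 18700 / 10000, 150807322 / 1000000000, 145043258 / 1000000000),
  (18700 / 10000, 18860 / 10000, 145043258 / 1000000000, 138902324 / 1000000000),
  (18860 / 10000, 18920 / 10000, 138902324 / 1000000000, 136601371 / 1000000000),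
  (18920 / 10000, 18940 / 10000, 136601371 / 1000000000, 135834613 / 1000000000),
  (18940 / 10000, 19500 / 10000, 135834613 / 1000000000, 114436015 / 1000000000),
  (19500 / 10000, 21250 / 10000, 114436015 / 1000000000, 47962884 / 1000000000),
  (21250 / 10000, 21350 / 10000, 47962884 / 1000000000, 44186119 / 1000000000),
  (21350 / 10000, 22000 / 10000, 44186119 / 1000000000, 20626313 / 1000000000),
  (22000 / 10000, 25000 / 10000, 20626313 / 1000000000, 0 / 1000000000)]

theorem segs_ok : ok 1 (1 / 2) segs = true := by decide +kernel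

theorem segs_good : segs.all (good (5059958 / 10000000) segs) = true := by decide +kernel

theorem segs_last : ∃ s ∈ segs, s.2.2.2 = 0 :=
  ⟨(22000 / 10000, 25000 / 10000, 20626313 / 1000000000, 0 / 1000000000), by decide +kernel,
    by norm_num⟩

theorem segs_inf : allchk segs (-(5059958 / 10000000)) 1 (-1) = true := by decide +kernel

theorem prof_segs : Prof (5059958 / 10000000 : ℝ) (wl segs) := by
  have := prof_of_check segs_ok segs_good segs_last segs_inf
  push_cast at this
  exact this

/-- The lower bound: the chain `1, 2.126, 1.859, 1.893, 1.888, 1.889, 1.889`. -/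
theorem kappa_lower {κ : ℝ} {w : ℝ → ℝ} (hw : Prof κ w) : 5059957 / 10000000 ≤ κ := by
  have h0 := hw.star (2126 / 1000) 1 (by norm_num) (by norm_num)
  have h1 := hw.star (1859 / 1000) (1000 / 2126) (by norm_num) (by norm_num)
  have h2 := hw.star (1893 / 1000) (1000 / 1859) (by norm_num) (by norm_num)
  have h3 := hw.star (1888 / 1000) (1000 / 1893) (by norm_num) (by norm_num)
  have h4 := hw.star (1889 / 1000) (1000 / 1888) (by norm_num) (by norm_num)
  have h5 := hw.star (1889 / 1000) (1000 / 1889) (by norm_num) (by norm_num)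
  have s0 := hw.symm (2126 / 1000) (by norm_num)
  have s1 := hw.symm (1859 / 1000) (by norm_num)
  have s2 := hw.symm (1893 / 1000) (by norm_num)
  have s3 := hw.symm (1888 / 1000) (by norm_num)
  have s4 := hw.symm (1889 / 1000) (by norm_num)
  have s5 := hw.one
  norm_num at h0 h1 h2 h3 h4 h5 s0 s1 s2 s3 s4 s5
  linarith

end Pool.Agent.Lib.MP_2c6a66_lc.Numeric
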