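import Mathlib

/-! The explicit marginal function: a convex piecewise linear decreasing function `f` on `[1,∞)`
with `f 1 = 1/2`, vanishing from about `2.2539` on, together with the inequalities which make
the comonotone coupling have makespan at most `1.506` times the optimum. -/

namespace Pool.Agent.Lib.MP_2c6a66_lc

noncomputable section

/-- convex piecewise linear profile -/
def f (x : ℝ) : ℝ :=
  max 0 (max (0.9505 - 0.4505 * x) (max (0.9396986 - 0.4399 * x) (max (0.9044522 - 0.4063 * x)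
    (max (0.8635009 - 0.3842 * x) (max (0.8563189 - 0.3804 * x) (0.8382309 - 0.3719 * x))))))

theorem f_nonneg (x : ℝ) : 0 ≤ f x := le_max_left _ _

theorem f_antitone : Antitone f := by
  intro x y h
  unfold f
  gcongr

theorem f_one : f 1 = 1 / 2 := by
  unfold f
  norm_num

theorem f_le_half {x : ℝ} (hx : 1 ≤ x) : f x ≤ 1 / 2 := by
  rw [← f_one]
  exact f_antitone hx

theorem f_eq1 {x : ℝ} (_h0 : 1 ≤ x) (h1 : x ≤ 1.019) : f x = 0.9505 - 0.4505 * x := by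
  unfold f
  apply le_antisymm
  · repeat' apply max_le
    all_goals linarith
  · exact le_max_of_le_right (le_max_left _ _)

theorem f_eq2 {x : ℝ} (h0 : 1.019 ≤ x) (h1 : x ≤ 1.049) : f x = 0.9396986 - 0.4399 * x := by
  unfold f
  apply le_antisymm
  · repeat' apply max_le
    all_goals linarith
  · exact le_max_of_le_right (le_max_of_le_right (le_max_left _ _))

theorem f_eq3 {x : ℝ} (h0 : 1.049 ≤ x) (h1 : x ≤ 1.853) : f x = 0.9044522 - 0.4063 * x := by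
  unfold f
  apply le_antisymm
  · repeat' apply max_le
    all_goals linarith
  · exact le_max_of_le_right (le_max_of_le_right (le_max_of_le_right (le_max_left _ _)))

theorem f_eq4 {x : ℝ} (h0 : 1.853 ≤ x) (h1 : x ≤ 1.89) : f x = 0.8635009 - 0.3842 * x := by
  unfold f
  apply le_antisymm
  · repeat' apply max_le
    all_goals linarith
  · exact le_max_of_le_right (le_max_of_le_right (le_max_of_le_right
      (le_max_of_le_right (le_max_left _ _))))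

theorem f_eq5 {x : ℝ} (h0 : 1.89 ≤ x) (h1 : x ≤ 2.128) : f x = 0.8563189 - 0.3804 * x := by
  unfold f
  apply le_antisymm
  · repeat' apply max_le
    all_goals linarith
  · exact le_max_of_le_right (le_max_of_le_right (le_max_of_le_right
      (le_max_of_le_right (le_max_of_le_right (le_max_left _ _)))))

theorem f_eq6 {x : ℝ} (h0 : 2.128 ≤ x) (h1 : x ≤ 8382309 / 3719000) :
    f x = 0.8382309 - 0.3719 * x := by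
  unfold f
  apply le_antisymm
  · repeat' apply max_le
    all_goals linarith
  · exact le_max_of_le_right (le_max_of_le_right (le_max_of_le_right
      (le_max_of_le_right (le_max_of_le_right (le_max_right _ _)))))

theorem f_eq0 {x : ℝ} (h0 : 8382309 / 3719000 ≤ x) : f x = 0 := by
  unfold f
  apply le_antisymm
  · repeat' apply max_le
    all_goals linarith
  · exact le_max_left _ _

/-- Case distinction over the pieces. -/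
theorem pieces {x : ℝ} (hx : 1 ≤ x) :
    (x ≤ 1.019 ∧ f x = 0.9505 - 0.4505 * x) ∨
    ((1.019 ≤ x ∧ x ≤ 1.049) ∧ f x = 0.9396986 - 0.4399 * x) ∨
    ((1.049 ≤ x ∧ x ≤ 1.853) ∧ f x = 0.9044522 - 0.4063 * x) ∨
    ((1.853 ≤ x ∧ x ≤ 1.89) ∧ f x = 0.8635009 - 0.3842 * x) ∨
    ((1.89 ≤ x ∧ x ≤ 2.128) ∧ f x = 0.8563189 - 0.3804 * x) ∨
    ((2.128 ≤ x ∧ x ≤ 8382309 / 3719000) ∧ f x = 0.8382309 - 0.3719 * x) ∨
    (8382309 / 3719000 ≤ x ∧ f x = 0) := by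
  rcases le_total x 1.019 with h1 | h1
  · exact Or.inl ⟨h1, f_eq1 hx h1⟩
  rcases le_total x 1.049 with h2 | h2
  · exact Or.inr (Or.inl ⟨⟨h1, h2⟩, f_eq2 h1 h2⟩)
  rcases le_total x 1.853 with h3 | h3
  · exact Or.inr (Or.inr (Or.inl ⟨⟨h2, h3⟩, f_eq3 h2 h3⟩))
  rcases le_total x 1.89 with h4 | h4
  · exact Or.inr (Or.inr (Or.inr (Or.inl ⟨⟨h3, h4⟩, f_eq4 h3 h4⟩)))
  rcases le_total x 2.128 with h5 | h5
  · exact Or.inr (Or.inr (Or.inr (Or.inr (Or.inl ⟨⟨h4, h5⟩, f_eq5 h4 h5⟩))))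
  rcases le_total x (8382309 / 3719000) with h6 | h6
  · exact Or.inr (Or.inr (Or.inr (Or.inr (Or.inr (Or.inl ⟨⟨h5, h6⟩, f_eq6 h5 h6⟩)))))
  · exact Or.inr (Or.inr (Or.inr (Or.inr (Or.inr (Or.inr ⟨h6, f_eq0 h6⟩)))))

/-- The inequality at the knot `1`. -/
theorem knot0 {x : ℝ} (hx : 1 ≤ x) :
    f x * (x * 1 - 1 - 1) ≤ 0.506 * 1 - 1 + 1 / 2 := by
  rcases pieces hx with ⟨h, e⟩ | ⟨⟨h, h'⟩, e⟩ | ⟨⟨h, h'⟩, e⟩ | ⟨⟨h, h'⟩, e⟩ | ⟨⟨h, h'⟩, e⟩ |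
    ⟨⟨h, h'⟩, e⟩ | ⟨h, e⟩ <;> rw [e]
  · nlinarith [sq_nonneg (x - 1)]
  · nlinarith [sq_nonneg (x - 1)]
  · nlinarith [sq_nonneg (x - 19 / 10)]
  · nlinarith [sq_nonneg (x - 19 / 10)]
  · nlinarith [sq_nonneg (x - 42511 / 20000)]
  · nlinarith [sq_nonneg (x - 213 / 100)]
  · norm_num

theorem knot1 {x : ℝ} (hx : 1 ≤ x) :
    f x * (x * 1.019 - 1.019 - 1) ≤ 0.506 * 1.019 - 1 + 0.4914405 := by
  rcases pieces hx with ⟨h, e⟩ | ⟨⟨h, h'⟩, e⟩ | ⟨⟨h, h'⟩, e⟩ | ⟨⟨h, h'⟩, e⟩ | ⟨⟨h, h'⟩, e⟩ |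
    ⟨⟨h, h'⟩, e⟩ | ⟨h, e⟩ <;> rw [e]
  · nlinarith [sq_nonneg (x - 1)]
  · nlinarith [sq_nonneg (x - 1)]
  · nlinarith [sq_nonneg (x - 19 / 10)]
  · nlinarith [sq_nonneg (x - 19 / 10)]
  · nlinarith [sq_nonneg (x - 529 / 250)]
  · nlinarith [sq_nonneg (x - 213 / 100)]
  · norm_num

theorem knot2 {x : ℝ} (hx : 1 ≤ x) :
    f x * (x * 1.049 - 1.049 - 1) ≤ 0.506 * 1.049 - 1 + 0.4782435 := by
  rcases pieces hx with ⟨h, e⟩ | ⟨⟨h, h'⟩, e⟩ | ⟨⟨h, h'⟩, e⟩ | ⟨⟨h, h'⟩, e⟩ | ⟨⟨h, h'⟩, e⟩ |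
    ⟨⟨h, h'⟩, e⟩ | ⟨h, e⟩ <;> rw [e]
  · nlinarith [sq_nonneg (x - 1)]
  · nlinarith [sq_nonneg (x - 1)]
  · nlinarith [sq_nonneg (x - 19 / 10)]
  · nlinarith [sq_nonneg (x - 19 / 10)]
  · nlinarith [sq_nonneg (x - 21 / 10)]
  · nlinarith [sq_nonneg (x - 213 / 100)]
  · norm_num

theorem knot3 {x : ℝ} (hx : 1 ≤ x) :
    f x * (x * 1.853 - 1.853 - 1) ≤ 0.506 * 1.853 - 1 + 0.1515783 := by
  rcases pieces hx with ⟨h, e⟩ | ⟨⟨h, h'⟩, e⟩ | ⟨⟨h, h'⟩, e⟩ | ⟨⟨h, h'⟩, e⟩ | ⟨⟨h, h'⟩, e⟩ |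
    ⟨⟨h, h'⟩, e⟩ | ⟨h, e⟩ <;> rw [e]
  · nlinarith [sq_nonneg (x - 1)]
  · nlinarith [sq_nonneg (x - 1)]
  · nlinarith [sq_nonneg (x - 37 / 20)]
  · nlinarith [sq_nonneg (x - 189 / 100)]
  · nlinarith [sq_nonneg (x - 9477 / 5000)]
  · nlinarith [sq_nonneg (x - 21 / 10)]
  · norm_num

theorem knot4 {x : ℝ} (hx : 1 ≤ x) :
    f x * (x * 1.89 - 1.89 - 1) ≤ 0.506 * 1.89 - 1 + 0.1373629 := by
  rcases pieces hx with ⟨h, e⟩ | ⟨⟨h, h'⟩, e⟩ | ⟨⟨h, h'⟩, e⟩ | ⟨⟨h, h'⟩, e⟩ | ⟨⟨h, h'⟩, e⟩ |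
    ⟨⟨h, h'⟩, e⟩ | ⟨h, e⟩ <;> rw [e]
  · nlinarith [sq_nonneg (x - 1)]
  · nlinarith [sq_nonneg (x - 1)]
  · nlinarith [sq_nonneg (x - 37 / 20)]
  · nlinarith [sq_nonneg (x - 236 / 125)]
  · nlinarith [sq_nonneg (x - 18901 / 10000)]
  · nlinarith [sq_nonneg (x - 21 / 10)]
  · norm_num

theorem knot5 {x : ℝ} (hx : 1 ≤ x) :
    f x * (x * 2.128 - 2.128 - 1) ≤ 0.506 * 2.128 - 1 + 0.0468277 := by
  rcases pieces hx with ⟨h, e⟩ | ⟨⟨h, h'⟩, e⟩ | ⟨⟨h, h'⟩, e⟩ | ⟨⟨h, h'⟩, e⟩ | ⟨⟨h, h'⟩, e⟩ |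
    ⟨⟨h, h'⟩, e⟩ | ⟨h, e⟩ <;> rw [e]
  · nlinarith [sq_nonneg (x - 1)]
  · nlinarith [sq_nonneg (x - 1)]
  · nlinarith [sq_nonneg (x - 231 / 125)]
  · nlinarith [sq_nonneg (x - 1859 / 1000)]
  · nlinarith [sq_nonneg (x - 19 / 10)]
  · nlinarith [sq_nonneg (x - 21 / 10)]
  · norm_num

theorem knot6 {x : ℝ} (hx : 1 ≤ x) :
    f x * (x * (8382309 / 3719000) - (8382309 / 3719000) - 1)
      ≤ 0.506 * (8382309 / 3719000) - 1 + 0 := by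
  rcases pieces hx with ⟨h, e⟩ | ⟨⟨h, h'⟩, e⟩ | ⟨⟨h, h'⟩, e⟩ | ⟨⟨h, h'⟩, e⟩ | ⟨⟨h, h'⟩, e⟩ |
    ⟨⟨h, h'⟩, e⟩ | ⟨h, e⟩ <;> rw [e]
  · nlinarith [sq_nonneg (x - 1)]
  · nlinarith [sq_nonneg (x - 1)]
  · nlinarith [sq_nonneg (x - 183 / 100)]
  · nlinarith [sq_nonneg (x - 37 / 20)]
  · nlinarith [sq_nonneg (x - 19 / 10)]
  · nlinarith [sq_nonneg (x - 21 / 10)]
  · norm_num

theorem knotInf {x : ℝ} (hx : 1 ≤ x) : f x * (x - 1) ≤ 0.506 := by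
  rcases pieces hx with ⟨h, e⟩ | ⟨⟨h, h'⟩, e⟩ | ⟨⟨h, h'⟩, e⟩ | ⟨⟨h, h'⟩, e⟩ | ⟨⟨h, h'⟩, e⟩ |
    ⟨⟨h, h'⟩, e⟩ | ⟨h, e⟩ <;> rw [e]
  · nlinarith [sq_nonneg (x - 1)]
  · nlinarith [sq_nonneg (x - 1)]
  · nlinarith [sq_nonneg (x - 8 / 5)]
  · nlinarith [sq_nonneg (x - 19 / 10)]
  · nlinarith [sq_nonneg (x - 19 / 10)]
  · nlinarith [sq_nonneg (x - 21 / 10)]
  · norm_num

theorem f_mul_le {x : ℝ} (hx : 1 ≤ x) : f x * x ≤ 0.506 := by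
  rcases pieces hx with ⟨h, e⟩ | ⟨⟨h, h'⟩, e⟩ | ⟨⟨h, h'⟩, e⟩ | ⟨⟨h, h'⟩, e⟩ | ⟨⟨h, h'⟩, e⟩ |
    ⟨⟨h, h'⟩, e⟩ | ⟨h, e⟩ <;> rw [e]
  · nlinarith [sq_nonneg (x - 1)]
  · nlinarith [sq_nonneg (x - 1)]
  · nlinarith [sq_nonneg (x - 111 / 100)]
  · nlinarith [sq_nonneg (x - 19 / 10)]
  · nlinarith [sq_nonneg (x - 19 / 10)]
  · nlinarith [sq_nonneg (x - 21 / 10)]
  · norm_num

/-- Linear interpolation. -/
theorem interp {A B r s z : ℝ} (h1 : 0 ≤ A * r + B)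
    (h2 : 0 ≤ A * s + B) (hz : r ≤ z) (hz' : z ≤ s) : 0 ≤ A * z + B := by
  rcases le_total 0 A with h | h
  · nlinarith
  · nlinarith

/-- Inequality (A): `x, z ≥ 1`. -/
theorem ineqA {x z : ℝ} (hx : 1 ≤ x) (hz : 1 ≤ z) :
    f x * (x * z - z - 1) + 1 - f z ≤ 0.506 * z := by
  have k0 := knot0 hx
  have k1 := knot1 hx
  have k2 := knot2 hx
  have k3 := knot3 hx
  have k4 := knot4 hx
  have k5 := knot5 hx
  have k6 := knot6 hx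
  have ki := knotInf hx
  set w := f x with hw
  rcases pieces hz with ⟨h, e⟩ | ⟨⟨h, h'⟩, e⟩ | ⟨⟨h, h'⟩, e⟩ | ⟨⟨h, h'⟩, e⟩ | ⟨⟨h, h'⟩, e⟩ |
    ⟨⟨h, h'⟩, e⟩ | ⟨h, e⟩ <;> rw [e]
  · have := @interp (0.506 - 0.4505 - w * (x - 1)) (w - 1 + 0.9505) 1 1.019 z (by linarith)
      (by linarith) hz h
    linarith
  · have := @interp (0.506 - 0.4399 - w * (x - 1)) (w - 1 + 0.9396986) 1.019 1.049 z (by linarith)
      (by linarith) h h'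
    linarith
  · have := @interp (0.506 - 0.4063 - w * (x - 1)) (w - 1 + 0.9044522) 1.049 1.853 z (by linarith)
      (by linarith) h h'
    linarith
  · have := @interp (0.506 - 0.3842 - w * (x - 1)) (w - 1 + 0.8635009) 1.853 1.89 z (by linarith)
      (by linarith) h h'
    linarith
  · have := @interp (0.506 - 0.3804 - w * (x - 1)) (w - 1 + 0.8563189) 1.89 2.128 z (by linarith)
      (by linarith) h h'
    linarith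
  · have := @interp (0.506 - 0.3719 - w * (x - 1)) (w - 1 + 0.8382309) 2.128
      (8382309 / 3719000) z (by linarith) (by linarith) h h'
    linarith
  · nlinarith

/-- Inequality (B): `x ≥ y ≥ 1`. -/
theorem ineqB {x y : ℝ} (hy : 1 ≤ y) (hxy : y ≤ x) :
    f x * (x - 1 - y) + y * f y ≤ 0.506 := by
  have hx : 1 ≤ x := hy.trans hxy
  have hyf := f_mul_le hy
  have hfx := f_nonneg x
  rcases le_total x (1 + y) with hc | hc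
  · nlinarith
  rcases pieces hx with ⟨h, e⟩ | ⟨⟨h, h'⟩, e⟩ | ⟨⟨h, h'⟩, e⟩ | ⟨⟨h, h'⟩, e⟩ | ⟨⟨h, h'⟩, e⟩ |
    ⟨⟨h, h'⟩, e⟩ | ⟨h, e⟩
  · exfalso; linarith
  · exfalso; linarith
  · exfalso; linarith
  · exfalso; linarith
  · rcases pieces hy with ⟨g, e'⟩ | ⟨⟨g, g'⟩, e'⟩ | ⟨⟨g, g'⟩, e'⟩ | ⟨⟨g, g'⟩, e'⟩ |
      ⟨⟨g, g'⟩, e'⟩ | ⟨⟨g, g'⟩, e'⟩ | ⟨g, e'⟩ <;> rw [e, e']
    · nlinarith [sq_nonneg (x - 2.12677 - (y - 1.00245) / 2), sq_nonneg (y - 1.00245)]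
    · nlinarith [sq_nonneg (x - 2.128 - (y - 1.02) / 2), sq_nonneg (y - 1.02)]
    · nlinarith [sq_nonneg (x - 2.128 - (y - 1.06) / 2), sq_nonneg (y - 1.06)]
    all_goals exfalso; linarith
  · rcases pieces hy with ⟨g, e'⟩ | ⟨⟨g, g'⟩, e'⟩ | ⟨⟨g, g'⟩, e'⟩ | ⟨⟨g, g'⟩, e'⟩ |
      ⟨⟨g, g'⟩, e'⟩ | ⟨⟨g, g'⟩, e'⟩ | ⟨g, e'⟩ <;> rw [e, e']
    · nlinarith [sq_nonneg (x - 2.1286 - (y - 1.0032) / 2), sq_nonneg (y - 1.0032)]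
    · nlinarith [sq_nonneg (x - 2.14 - (y - 1.02) / 2), sq_nonneg (y - 1.02)]
    · nlinarith [sq_nonneg (x - 2.16 - (y - 1.07) / 2), sq_nonneg (y - 1.07)]
    all_goals exfalso; linarith
  · rw [e]; linarith

end

end Pool.Agent.Lib.MP_2c6a66_lc
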