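import Pool.Agent.Lib.MP_2c6a66_lc.Mechanism

/-! For every number `n` of jobs there is a truthful-in-expectation (and individually rational)
randomized mechanism for two unrelated machines whose expected makespan is at most `1.506` times
the optimum. Hence `ρ_TE ≤ 1.506`. -/

namespace Pool.Agent.Results.MP_2c6a66_lc.TruthfulInExpectation1506

theorem result (n : ℕ) :
    ∃ (p : (Fin 2 → Fin n → ℝ) → (Fin n → Fin 2) → ℝ)
      (pay : (Fin 2 → Fin n → ℝ) → Fin 2 → ℝ),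
      ∀ b : Fin 2 → Fin n → ℝ, (∀ i k, 0 ≤ b i k) →
        (∀ σ, 0 ≤ p b σ) ∧
        (∑ σ, p b σ = 1) ∧
        (∀ (i : Fin 2) (r : Fin n → ℝ), (∀ k, 0 ≤ r k) →
          pay (Function.update b i r) i
              - ∑ σ, p (Function.update b i r) σ * ∑ k with σ k = i, b i k
            ≤ pay b i - ∑ σ, p b σ * ∑ k with σ k = i, b i k) ∧
        (∀ i : Fin 2, 0 ≤ pay b i - ∑ σ, p b σ * ∑ k with σ k = i, b i k) ∧
        (∀ τ : Fin n → Fin 2,
          ∑ σ, p b σ * max (∑ k with σ k = 0, b 0 k) (∑ k with σ k = 1, b 1 k)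
            ≤ (1506 / 1000 : ℝ) * max (∑ k with τ k = 0, b 0 k) (∑ k with τ k = 1, b 1 k)) := by
  refine ⟨fun b => Lib.MP_2c6a66_lc.law (Lib.MP_2c6a66_lc.asg b), Lib.MP_2c6a66_lc.pay,
    fun b hb => ⟨fun σ => Lib.MP_2c6a66_lc.law_nonneg _ _, Lib.MP_2c6a66_lc.law_sum_one b,
      fun i r hr => Lib.MP_2c6a66_lc.truthful hb i hr,
      fun i => Lib.MP_2c6a66_lc.participation hb i, fun τ => ?_⟩⟩
  have := Lib.MP_2c6a66_lc.ratio hb τ
  norm_num at this ⊢
  exact this

end Pool.Agent.Results.MP_2c6a66_lc.TruthfulInExpectation1506
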